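import Mathlib

/-!
# The real sequence spaces `ℓ_p`, `0 < p < 1`
-/

namespace Pool.Agent.W68deb0

open Finset Topology Filter

/-- The real sequences `x` with `∑ |x_i| ^ p < ∞`, for `0 < p < 1`, as a subspace of all real
sequences. -/
def ellSub (p : Set.Ioo (0 : ℝ) 1) : Submodule ℝ (ℕ → ℝ) where
  carrier := {x | Summable fun i => |x i| ^ (p : ℝ)}
  add_mem' := by
    intro x y hx hy
    refine Summable.of_nonneg_of_le (fun i => by positivity) (fun i => ?_) (hx.add hy)
    calc |(x + y) i| ^ (p : ℝ) ≤ (|x i| + |y i|) ^ (p : ℝ) := by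
          apply Real.rpow_le_rpow (abs_nonneg _) _ p.2.1.le
          exact abs_add_le _ _
      _ ≤ |x i| ^ (p : ℝ) + |y i| ^ (p : ℝ) :=
          Real.rpow_add_le_add_rpow (abs_nonneg _) (abs_nonneg _) p.2.1.le p.2.2.le
  zero_mem' := by
    simp [Real.zero_rpow p.2.1.ne', summable_zero]
  smul_mem' := by
    intro c x hx
    have : (fun i => |(c • x) i| ^ (p : ℝ)) = fun i => |c| ^ (p : ℝ) * |x i| ^ (p : ℝ) := by
      funext i
      simp [abs_mul, Real.mul_rpow]
    show Summable fun i => |(c • x) i| ^ (p : ℝ)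
    rw [this]
    exact hx.mul_left _

/-- The space `ℓ_p`, `0 < p < 1`. -/
def EllP (p : Set.Ioo (0 : ℝ) 1) : Type := ellSub p

variable {p : Set.Ioo (0 : ℝ) 1}

instance : AddCommGroup (EllP p) := inferInstanceAs (AddCommGroup (ellSub p))

instance : Module ℝ (EllP p) := inferInstanceAs (Module ℝ (ellSub p))

/-- The `i`-th coordinate of an element of `ℓ_p`. -/
def EllP.coord (x : EllP p) (i : ℕ) : ℝ := x.1 i

namespace EllP

lemma ext {x y : EllP p} (h : ∀ i, x.coord i = y.coord i) : x = y :=
  Subtype.ext (funext h)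

lemma summ (x : EllP p) : Summable fun i => |x.coord i| ^ (p : ℝ) := x.2

@[simp] lemma coord_add (x y : EllP p) (i : ℕ) : (x + y).coord i = x.coord i + y.coord i := rfl

@[simp] lemma coord_sub (x y : EllP p) (i : ℕ) : (x - y).coord i = x.coord i - y.coord i := rfl

@[simp] lemma coord_neg (x : EllP p) (i : ℕ) : (-x).coord i = -x.coord i := rfl

@[simp] lemma coord_zero (i : ℕ) : (0 : EllP p).coord i = 0 := rfl

@[simp] lemma coord_smul (c : ℝ) (x : EllP p) (i : ℕ) : (c • x).coord i = c * x.coord i := rfl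

lemma coord_sum {ι : Type*} (s : Finset ι) (f : ι → EllP p) (i : ℕ) :
    (∑ j ∈ s, f j).coord i = ∑ j ∈ s, (f j).coord i := by
  classical
  induction s using Finset.induction_on with
  | empty => simp
  | insert a s ha ih => rw [Finset.sum_insert ha, Finset.sum_insert ha, coord_add, ih]

end EllP

/-- The F-norm `∑ |x_i| ^ p` on `ℓ_p`. -/
noncomputable def ellNorm (p : Set.Ioo (0 : ℝ) 1) : AddGroupNorm (EllP p) where
  toFun x := ∑' i, |x.coord i| ^ (p : ℝ)
  map_zero' := by simp [Real.zero_rpow p.2.1.ne']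
  add_le' := by
    intro x y
    rw [← Summable.tsum_add x.summ y.summ]
    refine Summable.tsum_le_tsum (fun i => ?_) (x + y).summ (x.summ.add y.summ)
    calc |(x + y).coord i| ^ (p : ℝ) ≤ (|x.coord i| + |y.coord i|) ^ (p : ℝ) := by
          apply Real.rpow_le_rpow (abs_nonneg _) _ p.2.1.le
          exact abs_add_le _ _
      _ ≤ |x.coord i| ^ (p : ℝ) + |y.coord i| ^ (p : ℝ) :=
          Real.rpow_add_le_add_rpow (abs_nonneg _) (abs_nonneg _) p.2.1.le p.2.2.le
  neg' := by intro x; simp
  eq_zero_of_map_eq_zero' := by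
    intro x hx
    apply EllP.ext
    intro i
    have h1 := (x.summ.hasSum_iff.mpr hx)
    rw [hasSum_zero_iff_of_nonneg (fun i => by positivity)] at h1
    have h2 := congrFun h1 i
    simp only [Pi.zero_apply] at h2
    rw [Real.rpow_eq_zero (abs_nonneg _) p.2.1.ne'] at h2
    simpa using h2

/-- The topology, the uniform structure and the metric `∑ |x_i - y_i| ^ p` of `ℓ_p`. -/
noncomputable instance : NormedAddCommGroup (EllP p) := (ellNorm p).toNormedAddCommGroup

end Pool.Agent.W68deb0
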