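import Pool.Agent.W_MP_68deb0_an.Defs
import Pool.Agent.W_MP_68deb0_an.EllDefs

/-!
# Properties of the real sequence spaces `ℓ_p`, `0 < p < 1`
-/

namespace Pool.Agent.W68deb0

open Finset Topology Filter

variable {p : Set.Ioo (0 : ℝ) 1}

namespace EllP

lemma norm_def (x : EllP p) : ‖x‖ = ∑' i, |x.coord i| ^ (p : ℝ) := rfl

lemma norm_smul' (c : ℝ) (x : EllP p) : ‖c • x‖ = |c| ^ (p : ℝ) * ‖x‖ := by
  rw [norm_def, norm_def, ← tsum_mul_left]
  congr 1
  funext i
  rw [coord_smul, abs_mul, Real.mul_rpow (abs_nonneg _) (abs_nonneg _)]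

lemma sum_le_norm (x : EllP p) (s : Finset ℕ) : ∑ i ∈ s, |x.coord i| ^ (p : ℝ) ≤ ‖x‖ :=
  x.summ.sum_le_tsum s (fun i _ => by positivity)

lemma norm_le_of_sums {x : EllP p} {C : ℝ}
    (h : ∀ s : Finset ℕ, ∑ i ∈ s, |x.coord i| ^ (p : ℝ) ≤ C) : ‖x‖ ≤ C :=
  x.summ.tsum_le_of_sum_le h

instance : ContinuousSMul ℝ (EllP p) := by
  apply ContinuousSMul.of_nhds_zero
  · rw [tendsto_zero_iff_norm_tendsto_zero]
    simp only [norm_smul']
    have h1 : Tendsto (fun q : ℝ × EllP p => |q.1| ^ (p : ℝ)) (𝓝 0 ×ˢ 𝓝 0) (𝓝 (|0| ^ (p : ℝ))) := by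
      have : Continuous (fun c : ℝ => |c| ^ (p : ℝ)) :=
        continuous_abs.rpow_const (fun _ => Or.inr p.2.1.le)
      exact (this.tendsto 0).comp tendsto_fst
    have h2 : Tendsto (fun q : ℝ × EllP p => ‖q.2‖) (𝓝 0 ×ˢ 𝓝 0) (𝓝 ‖(0 : EllP p)‖) :=
      (continuous_norm.tendsto 0).comp tendsto_snd
    have h3 := h1.mul h2
    simpa using h3
  · intro x
    rw [tendsto_zero_iff_norm_tendsto_zero]
    simp only [norm_smul']
    have h1 : Tendsto (fun c : ℝ => |c| ^ (p : ℝ)) (𝓝 0) (𝓝 (|0| ^ (p : ℝ))) := by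
      have : Continuous (fun c : ℝ => |c| ^ (p : ℝ)) :=
        continuous_abs.rpow_const (fun _ => Or.inr p.2.1.le)
      exact this.tendsto 0
    have h3 := h1.mul_const ‖x‖
    simpa [Real.zero_rpow p.2.1.ne'] using h3
  · intro c
    rw [tendsto_zero_iff_norm_tendsto_zero]
    simp only [norm_smul']
    have h2 : Tendsto (fun q : EllP p => ‖q‖) (𝓝 0) (𝓝 ‖(0 : EllP p)‖) :=
      continuous_norm.tendsto 0
    have h3 := h2.const_mul (|c| ^ (p : ℝ))
    simpa using h3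

/-- The unit ball is bounded. -/
lemma isVonNBounded_ball : Bornology.IsVonNBounded ℝ {x : EllP p | ‖x‖ ≤ 1} := by
  intro V hV
  rw [Metric.mem_nhds_iff] at hV
  obtain ⟨ε, hε, hV⟩ := hV
  rw [absorbs_iff_norm]
  have h1 : Tendsto (fun c : ℝ => c ^ (p : ℝ)) atTop atTop := tendsto_rpow_atTop p.2.1
  obtain ⟨r, hr⟩ := (h1.eventually_gt_atTop (1 / ε)).exists_forall_of_atTop
  refine ⟨max r 1, fun c hc x hx => ?_⟩
  have hc1 : 1 ≤ ‖c‖ := (le_max_right _ _).trans hc
  have hc0 : c ≠ 0 := by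
    intro h; rw [h, norm_zero] at hc1; linarith
  refine ⟨c⁻¹ • x, hV ?_, ?_⟩
  · rw [mem_ball_zero_iff, norm_smul', abs_inv, Real.inv_rpow (abs_nonneg _)]
    have h2 := hr |c| ((le_max_left _ _).trans hc)
    have h3 : 0 < |c| ^ (p : ℝ) := lt_trans (by positivity) h2
    rw [div_lt_iff₀ hε] at h2
    calc (|c| ^ (p : ℝ))⁻¹ * ‖x‖ ≤ (|c| ^ (p : ℝ))⁻¹ * 1 := by gcongr; exact hx
      _ = (|c| ^ (p : ℝ))⁻¹ := mul_one _
      _ < ε := by
        rw [inv_lt_iff_one_lt_mul₀ h3]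
        linarith
  · simp [smul_smul, mul_inv_cancel₀ hc0]

lemma ball_mem_nhds : {x : EllP p | ‖x‖ ≤ 1} ∈ 𝓝 (0 : EllP p) := by
  have : Metric.closedBall (0 : EllP p) 1 ∈ 𝓝 (0 : EllP p) :=
    Metric.closedBall_mem_nhds _ one_pos
  refine Filter.mem_of_superset this ?_
  intro x hx
  simpa using hx

/-- The unit vectors. -/
noncomputable def unit (i : ℕ) : EllP p :=
  ⟨Pi.single i 1, by
    show Summable fun j => |(Pi.single i (1 : ℝ) : ℕ → ℝ) j| ^ (p : ℝ)
    apply summable_of_ne_finset_zero (s := {i})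
    intro j hj
    rw [Finset.mem_singleton] at hj
    rw [Pi.single_eq_of_ne hj, abs_zero, Real.zero_rpow p.2.1.ne']⟩

lemma coord_unit (i j : ℕ) : (unit i : EllP p).coord j = if j = i then 1 else 0 := by
  show (Pi.single i (1 : ℝ) : ℕ → ℝ) j = _
  rw [Pi.single_apply]

lemma norm_unit (i : ℕ) : ‖(unit i : EllP p)‖ = 1 := by
  rw [norm_def, tsum_eq_single i]
  · simp [coord_unit]
  · intro j hj
    simp [coord_unit, hj, Real.zero_rpow p.2.1.ne']

/-- The first `N` coordinates. -/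
def trunc (p : Set.Ioo (0 : ℝ) 1) (N : ℕ) : EllP p →ₗ[ℝ] (Fin N → ℝ) where
  toFun x := fun i => x.coord i
  map_add' x y := by funext i; simp
  map_smul' c x := by funext i; simp

lemma trunc_apply (N : ℕ) (x : EllP p) (i : Fin N) : trunc p N x i = x.coord i := rfl

theorem hasComplementedEllp : HasComplementedEllp (p : ℝ) (EllP p) := by
  refine ⟨_, isVonNBounded_ball, _, ball_mem_nhds, fun N => ?_⟩
  refine ⟨fun i => unit i, trunc p N, ?_, ?_, ?_⟩
  · intro i
    exact (norm_unit (p := p) i).le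
  · intro i
    funext j
    rw [trunc_apply, coord_unit, Pi.single_apply]
    by_cases h : j = i
    · simp [h]
    · have : (j : ℕ) ≠ i := fun h' => h (Fin.ext h')
      simp [h, this]
  · intro w hw
    simp only [trunc_apply]
    rw [Fin.sum_univ_eq_sum_range (fun i => |w.coord i| ^ (p : ℝ))]
    exact (sum_le_norm w _).trans hw

/-- `ℓ_p` is not locally convex. -/
theorem not_locallyConvex : ¬ LocallyConvexSpace ℝ (EllP p) := by
  intro hlc
  have h1 := (LocallyConvexSpace.convex_basis (𝕜 := ℝ) (E := EllP p) 0).mem_iff.mp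
    (Metric.ball_mem_nhds (0 : EllP p) one_pos)
  obtain ⟨U, ⟨hU, hUc⟩, hUb⟩ := h1
  simp only [id] at hUb hUc
  rw [Metric.mem_nhds_iff] at hU
  obtain ⟨ε, hε, hεU⟩ := hU
  obtain ⟨t, ht0, ht⟩ : ∃ t : ℝ, 0 < t ∧ t ^ (p : ℝ) < ε := by
    refine ⟨(ε / 2) ^ (1 / (p : ℝ)), by positivity, ?_⟩
    rw [← Real.rpow_mul (by positivity), one_div, inv_mul_cancel₀ p.2.1.ne', Real.rpow_one]
    linarith
  have h2 : Tendsto (fun c : ℝ => c ^ (1 - (p : ℝ))) atTop atTop :=
    tendsto_rpow_atTop (by linarith [p.2.2])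
  have h3 : Tendsto (fun n : ℕ => ((n + 1 : ℕ) : ℝ) ^ (1 - (p : ℝ))) atTop atTop :=
    h2.comp (tendsto_natCast_atTop_atTop.comp (tendsto_add_atTop_nat 1))
  obtain ⟨n, hn⟩ := (h3.eventually_ge_atTop (1 / t ^ (p : ℝ))).exists
  set y : EllP p := ∑ i ∈ range (n + 1), ((n + 1 : ℕ) : ℝ)⁻¹ • (t • (unit i : EllP p)) with hy
  have h4 : y ∈ U := by
    apply hUc.sum_mem
    · intro i _; positivity
    · rw [Finset.sum_const, Finset.card_range, nsmul_eq_mul, mul_inv_cancel₀ (by positivity)]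
    · intro i _
      apply hεU
      rw [mem_ball_zero_iff, norm_smul', norm_unit, mul_one, abs_of_pos ht0]
      exact ht
  have h5 := hUb h4
  rw [mem_ball_zero_iff] at h5
  have h6 : ∀ j ∈ range (n + 1), y.coord j = ((n + 1 : ℕ) : ℝ)⁻¹ * t := by
    intro j hj
    rw [hy, coord_sum, Finset.sum_eq_single j]
    · simp [coord_unit]
    · intro i _ hij
      simp [coord_unit, hij.symm]
    · intro h; exact absurd hj h
  have h7 := sum_le_norm y (range (n + 1))
  rw [Finset.sum_congr rfl (fun j hj => by rw [h6 j hj])] at h7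
  rw [Finset.sum_const, Finset.card_range, nsmul_eq_mul] at h7
  have hn0 : (0 : ℝ) < ((n + 1 : ℕ) : ℝ) := by positivity
  have h8 : ((n + 1 : ℕ) : ℝ) * |((n + 1 : ℕ) : ℝ)⁻¹ * t| ^ (p : ℝ)
      = ((n + 1 : ℕ) : ℝ) ^ (1 - (p : ℝ)) * t ^ (p : ℝ) := by
    rw [abs_of_pos (by positivity), Real.mul_rpow (by positivity) ht0.le,
      Real.inv_rpow hn0.le, Real.rpow_sub hn0, Real.rpow_one]
    field_simp
  rw [h8] at h7
  rw [div_le_iff₀ (by positivity)] at hn
  linarith

/-- `ℓ_p` is complete. -/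
instance : CompleteSpace (EllP p) := by
  apply Metric.complete_of_cauchySeq_tendsto
  intro u hu
  -- coordinates converge
  have hcoord : ∀ i, ∀ x y : EllP p, |x.coord i - y.coord i| ^ (p : ℝ) ≤ dist x y := by
    intro i x y
    rw [dist_eq_norm]
    have := sum_le_norm (x - y) {i}
    simpa using this
  have h1 : ∀ i, ∃ l : ℝ, Tendsto (fun n => (u n).coord i) atTop (𝓝 l) := by
    intro i
    apply cauchySeq_tendsto_of_complete
    rw [Metric.cauchySeq_iff] at hu ⊢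
    intro ε hε
    obtain ⟨N, hN⟩ := hu (ε ^ (p : ℝ)) (by positivity)
    refine ⟨N, fun m hm n hn => ?_⟩
    have h2 := lt_of_le_of_lt (hcoord i (u m) (u n)) (hN m hm n hn)
    rw [Real.dist_eq]
    exact (Real.rpow_lt_rpow_iff (abs_nonneg _) hε.le p.2.1).mp h2
  choose l hl using h1
  -- finite sums of the difference
  have h2 : ∀ ε > 0, ∃ N, ∀ n ≥ N, ∀ s : Finset ℕ,
      ∑ i ∈ s, |(u n).coord i - l i| ^ (p : ℝ) ≤ ε := by
    intro ε hε
    rw [Metric.cauchySeq_iff] at hu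
    obtain ⟨N, hN⟩ := hu ε hε
    refine ⟨N, fun n hn s => ?_⟩
    have h3 : Tendsto (fun m => ∑ i ∈ s, |(u n).coord i - (u m).coord i| ^ (p : ℝ)) atTop
        (𝓝 (∑ i ∈ s, |(u n).coord i - l i| ^ (p : ℝ))) := by
      apply tendsto_finsetSum
      intro i _
      have h4 : Continuous (fun c : ℝ => |c| ^ (p : ℝ)) :=
        continuous_abs.rpow_const (fun _ => Or.inr p.2.1.le)
      exact (h4.tendsto _).comp (tendsto_const_nhds.sub (hl i))
    refine le_of_tendsto h3 ?_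
    filter_upwards [eventually_ge_atTop N] with m hm
    have h5 := sum_le_norm (u n - u m) s
    have h6 := hN n hn m hm
    rw [dist_eq_norm] at h6
    simp only [coord_sub] at h5
    linarith
  -- the limit lies in the space
  obtain ⟨N, hN⟩ := h2 1 one_pos
  have h7 : Summable fun i => |(u N).coord i - l i| ^ (p : ℝ) :=
    summable_of_sum_le (fun i => by positivity) (hN N le_rfl)
  let d : EllP p := ⟨fun i => (u N).coord i - l i, h7⟩
  refine ⟨u N - d, ?_⟩
  have hd : ∀ i, (u N - d).coord i = l i := by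
    intro i
    have : d.coord i = (u N).coord i - l i := rfl
    rw [coord_sub, this]; ring
  rw [Metric.tendsto_atTop]
  intro ε hε
  obtain ⟨M, hM⟩ := h2 (ε / 2) (by positivity)
  refine ⟨M, fun n hn => ?_⟩
  rw [dist_eq_norm]
  have : ‖u n - (u N - d)‖ ≤ ε / 2 := by
    apply norm_le_of_sums
    intro s
    have h8 : ∀ i, (u n - (u N - d)).coord i = (u n).coord i - l i := by
      intro i; rw [coord_sub, hd]
    simp only [h8]
    exact hM n hn s
  linarith

end EllP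

end Pool.Agent.W68deb0
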