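import Pool.Agent.W_MP_68deb0_an.Defs

/-!
# A combinatorial core: Hamming cubes do not factor through normed spaces
into sequence spaces with a steep modulus.
-/

namespace Pool.Agent.W68deb0

open Finset

/-- Double counting: updating one coordinate. -/
lemma sum_update {n m : ℕ} (j : Fin n) (F : (Fin n → Fin (m + 1)) → ℕ) :
    ∑ h : Fin n → Fin (m + 1), ∑ a : Fin (m + 1), F (Function.update h j a)
      = (m + 1) * ∑ h, F h := by
  have h1 : ∀ h : Fin n → Fin (m + 1), ∑ a : Fin (m + 1), F (Function.update h j a)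
      = ∑ a : Fin (m + 1), F (h + Pi.single j a) := by
    intro h
    rw [← Equiv.sum_comp (Equiv.addLeft (h j)) (fun a => F (Function.update h j a))]
    refine Finset.sum_congr rfl fun a _ => ?_
    congr 1
    funext i
    by_cases hi : i = j
    · subst hi; simp
    · simp [Function.update_of_ne hi, Pi.single_eq_of_ne hi]
  simp_rw [h1]
  rw [Finset.sum_comm]
  have h2 : ∀ a : Fin (m + 1), ∑ h : Fin n → Fin (m + 1), F (h + Pi.single j a)
      = ∑ h, F h := by
    intro a
    exact Equiv.sum_comp (Equiv.addRight (Pi.single j a)) F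
  simp [h2]

/-- A finite free-set lemma. -/
lemma exists_good {n m : ℕ} (Bad : Fin n → (Fin n → Fin (m + 1)) → Prop) (B : ℕ)
    (hB : ∀ j h, ∀ s : Finset (Fin (m + 1)),
      (∀ a ∈ s, Bad j (Function.update h j a)) → s.card ≤ B)
    (hm : n * B < m + 1) : ∃ h, ∀ j, ¬ Bad j h := by
  classical
  by_contra hcon
  push Not at hcon
  have key : ∀ j, (m + 1) * ∑ h : Fin n → Fin (m + 1), (if Bad j h then 1 else 0)
      ≤ (m + 1) ^ n * B := by
    intro j
    rw [← sum_update j (fun h => if Bad j h then 1 else 0)]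
    calc ∑ h : Fin n → Fin (m + 1), ∑ a : Fin (m + 1),
          (if Bad j (Function.update h j a) then 1 else 0)
        ≤ ∑ _h : Fin n → Fin (m + 1), B := by
          refine Finset.sum_le_sum fun h _ => ?_
          rw [Finset.sum_boole]
          simp only [Nat.cast_id]
          refine hB j h _ ?_
          intro a ha
          simpa using ha
      _ = (m + 1) ^ n * B := by simp
  have h1 : (m + 1) ^ n ≤ ∑ h : Fin n → Fin (m + 1), ∑ j : Fin n,
      (if Bad j h then 1 else 0) := by
    calc (m + 1) ^ n = ∑ _h : Fin n → Fin (m + 1), 1 := by simp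
      _ ≤ _ := by
        refine Finset.sum_le_sum fun h _ => ?_
        obtain ⟨j, hj⟩ := hcon h
        calc 1 = (if Bad j h then 1 else 0) := by simp [hj]
          _ ≤ ∑ j : Fin n, (if Bad j h then 1 else 0) :=
            Finset.single_le_sum (f := fun j => if Bad j h then 1 else 0)
              (fun _ _ => Nat.zero_le _) (Finset.mem_univ j)
  rw [Finset.sum_comm] at h1
  have h2 : (m + 1) * (m + 1) ^ n ≤ n * ((m + 1) ^ n * B) := by
    calc (m + 1) * (m + 1) ^ n
        ≤ (m + 1) * ∑ j : Fin n, ∑ h : Fin n → Fin (m + 1), (if Bad j h then 1 else 0) :=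
          Nat.mul_le_mul_left _ h1
      _ = ∑ j : Fin n, (m + 1) * ∑ h : Fin n → Fin (m + 1), (if Bad j h then 1 else 0) := by
          rw [Finset.mul_sum]
      _ ≤ ∑ _j : Fin n, (m + 1) ^ n * B := Finset.sum_le_sum fun j _ => key j
      _ = n * ((m + 1) ^ n * B) := by simp
  have h3 : 0 < (m + 1) ^ n := by positivity
  nlinarith

namespace SteepModulus

variable {ω : ℝ → ℝ} (hω : SteepModulus ω)

include hω

lemma zero_nonneg : 0 ≤ ω 0 := by
  have := hω.subadd 0 0 le_rfl le_rfl
  simp at this
  linarith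

lemma nonneg {t : ℝ} (ht : 0 ≤ t) : 0 ≤ ω t :=
  (hω.zero_nonneg).trans (hω.mono 0 t le_rfl ht)

lemma nsmul_le (n : ℕ) {s : ℝ} (hs : 0 ≤ s) : ω ((n + 1 : ℕ) * s) ≤ (n + 1 : ℕ) * ω s := by
  induction n with
  | zero => simp
  | succ n ih =>
    have h1 := hω.subadd ((n + 1 : ℕ) * s) s (by positivity) hs
    have h2 : ((n + 1 + 1 : ℕ) : ℝ) * s = (n + 1 : ℕ) * s + s := by push_cast; ring
    rw [h2]
    refine h1.trans ?_
    have h3 : ((n + 1 + 1 : ℕ) : ℝ) * ω s = (n + 1 : ℕ) * ω s + ω s := by push_cast; ring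
    rw [h3]
    linarith

lemma pos {t : ℝ} (ht : 0 < t) : 0 < ω t := by
  obtain ⟨s, hs0, hs1, hs⟩ := hω.steep 1
  have hs' : 0 < ω s := by linarith
  -- choose n with s ≤ (n+1) * t
  obtain ⟨n, hn⟩ := exists_nat_ge (s / t)
  have h1 : s ≤ ((n + 1 : ℕ) : ℝ) * t := by
    rw [div_le_iff₀ ht] at hn
    push_cast
    nlinarith
  have h2 := hω.mono s _ hs0.le h1
  have h3 := hω.nsmul_le n ht.le
  by_contra hcon
  push Not at hcon
  have h4 : ((n + 1 : ℕ) : ℝ) * ω t ≤ 0 := mul_nonpos_of_nonneg_of_nonpos (by positivity) hcon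
  linarith

/-- The number of levels. -/
lemma exists_levels (R : ℝ) : ∃ K : ℕ, 2 ≤ K ∧ R ≤ K * ω (1 / (2 * K)) := by
  obtain ⟨t, ht0, ht1, ht⟩ := hω.steep (6 * R)
  refine ⟨⌈1 / t⌉₊ + 1, ?_, ?_⟩
  · have : 0 < ⌈1 / t⌉₊ := Nat.ceil_pos.mpr (by positivity)
    omega
  · set K : ℕ := ⌈1 / t⌉₊ + 1 with hK
    have hK1 : 1 / t ≤ (K : ℝ) := by
      have := Nat.le_ceil (1 / t)
      rw [hK]; push_cast; linarith
    have hK2 : (K : ℝ) ≤ 3 / t := by
      have h1 : (⌈1 / t⌉₊ : ℝ) < 1 / t + 1 := Nat.ceil_lt_add_one (by positivity)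
      have h2 : 1 ≤ 1 / t := by rw [le_div_iff₀ ht0]; linarith
      have h3 : 3 / t = 1 / t + 1 / t + 1 / t := by ring
      rw [hK, h3]; push_cast; linarith
    have hKpos : 0 < (K : ℝ) := lt_of_lt_of_le (by positivity) hK1
    have h1 : t ≤ ((5 + 1 : ℕ) : ℝ) * (1 / (2 * K)) := by
      rw [le_div_iff₀ ht0] at hK2
      have h0 : (((5 + 1 : ℕ) : ℝ)) * (1 / (2 * (K : ℝ))) = 3 / K := by
        push_cast; field_simp; ring
      rw [h0, le_div_iff₀ hKpos]
      linarith
    have h2 := hω.mono t _ ht0.le h1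
    have h3 := hω.nsmul_le 5 (s := 1 / (2 * K)) (by positivity)
    have h4 : R * t ≤ ω (1 / (2 * K)) := by
      push_cast at h3 h2
      linarith
    have h5 : 1 ≤ K * t := by
      rw [div_le_iff₀ ht0] at hK1
      linarith
    have h6 : 0 ≤ ω (1 / (2 * K)) := hω.nonneg (by positivity)
    by_cases hR : 0 ≤ R
    · calc R ≤ R * (K * t) := by nlinarith
        _ = K * (R * t) := by ring
        _ ≤ K * ω (1 / (2 * K)) := by
          exact mul_le_mul_of_nonneg_left h4 hKpos.le
    · push Not at hR
      have : 0 ≤ K * ω (1 / (2 * K)) := by positivity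
      linarith

lemma abs_sub_le (a b c : ℝ) : ω |a - c| ≤ ω |a - b| + ω |b - c| :=
  (hω.mono _ _ (abs_nonneg _) (_root_.abs_sub_le a b c)).trans
    (hω.subadd _ _ (abs_nonneg _) (abs_nonneg _))

lemma sum_abs_sub_le {ι : Type*} [Fintype ι] (a b c : ι → ℝ) :
    ∑ i, ω |a i - c i| ≤ ∑ i, ω |a i - b i| + ∑ i, ω |b i - c i| := by
  rw [← Finset.sum_add_distrib]
  exact Finset.sum_le_sum fun i _ => hω.abs_sub_le _ _ _

lemma card_le {ι : Type*} [Fintype ι] (a c : ι → ℝ) (s : Finset ι) {δ C : ℝ} (hδ : 0 < δ)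
    (hs : ∀ i ∈ s, δ ≤ |a i - c i|) (hC : ∑ i, ω |a i - c i| ≤ C) :
    (s.card : ℝ) ≤ C / ω δ := by
  rw [le_div_iff₀ (hω.pos hδ)]
  calc (s.card : ℝ) * ω δ = ∑ _i ∈ s, ω δ := by simp
    _ ≤ ∑ i ∈ s, ω |a i - c i| :=
      Finset.sum_le_sum fun i hi => hω.mono _ _ hδ.le (hs i hi)
    _ ≤ ∑ i, ω |a i - c i| :=
      Finset.sum_le_sum_of_subset_of_nonneg (Finset.subset_univ s)
        (fun i _ _ => hω.nonneg (abs_nonneg _))
    _ ≤ C := hC

end SteepModulus

section Cube

variable {Y : Type*} [NormedAddCommGroup Y] [NormedSpace ℝ Y]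
variable {ι : Type*} [Fintype ι] [DecidableEq ι]

/-- The level sets of a word. -/
def lev (w : ι → ℕ) (k : ℕ) : Finset ι := univ.filter (fun i => k < w i)

/-- Average of the values of `a` on the level sets of a word. -/
noncomputable def avg (K : ℕ) (a : Finset ι → Y) (w : ι → ℕ) : Y :=
  (K : ℝ)⁻¹ • ∑ k ∈ range K, a (lev w k)

omit [NormedSpace ℝ Y] [Fintype ι] in
lemma dist_of_subset (a : Finset ι → Y) {L : ℝ}
    (hA : ∀ A i, i ∉ A → ‖a (insert i A) - a A‖ ≤ L) (A D : Finset ι) (hD : Disjoint A D) :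
    ‖a (A ∪ D) - a A‖ ≤ L * D.card := by
  induction D using Finset.induction_on with
  | empty => simp
  | insert i D hi ih =>
    have h1 : Disjoint A D := by
      rw [Finset.disjoint_insert_right] at hD; exact hD.2
    have h2 : i ∉ A := by
      rw [Finset.disjoint_insert_right] at hD; exact hD.1
    have h3 : i ∉ A ∪ D := by simp [h2, hi]
    have h4 := hA (A ∪ D) i h3
    have h5 : A ∪ insert i D = insert i (A ∪ D) := by
      rw [Finset.union_insert]
    rw [h5, Finset.card_insert_of_notMem hi]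
    calc ‖a (insert i (A ∪ D)) - a A‖
        = ‖(a (insert i (A ∪ D)) - a (A ∪ D)) + (a (A ∪ D) - a A)‖ := by congr 1; abel
      _ ≤ ‖a (insert i (A ∪ D)) - a (A ∪ D)‖ + ‖a (A ∪ D) - a A‖ := norm_add_le _ _
      _ ≤ L + L * D.card := add_le_add h4 (ih h1)
      _ = L * ((D.card + 1 : ℕ) : ℝ) := by push_cast; ring

lemma dist_avg (a : Finset ι → Y) {L : ℝ} (hL : 0 ≤ L)
    (hA : ∀ A i, i ∉ A → ‖a (insert i A) - a A‖ ≤ L) (K : ℕ) (w w' : ι → ℕ)
    (hw : ∀ i, w' i ≤ w i) :
    ‖avg K a w - avg K a w'‖ ≤ L / K * ∑ i, ((w i : ℝ) - w' i) := by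
  unfold avg
  rw [← smul_sub, ← Finset.sum_sub_distrib, norm_smul]
  have h1 : ‖(K : ℝ)⁻¹‖ = (K : ℝ)⁻¹ := by
    rw [Real.norm_eq_abs, abs_of_nonneg (by positivity)]
  rw [h1]
  have h2 : ∀ k ∈ range K, ‖a (lev w k) - a (lev w' k)‖
      ≤ L * ∑ i, (if w' i ≤ k ∧ k < w i then (1 : ℝ) else 0) := by
    intro k _
    have h3 : lev w k = lev w' k ∪ (univ.filter (fun i => w' i ≤ k ∧ k < w i)) := by
      ext i
      simp only [lev, Finset.mem_filter, Finset.mem_univ, true_and, Finset.mem_union]
      have := hw i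
      omega
    have h4 : Disjoint (lev w' k) (univ.filter (fun i => w' i ≤ k ∧ k < w i)) := by
      rw [Finset.disjoint_left]
      intro i hi
      simp only [lev, Finset.mem_filter, Finset.mem_univ, true_and] at hi ⊢
      omega
    rw [h3]
    refine (dist_of_subset a hA _ _ h4).trans ?_
    rw [Finset.sum_boole]
  calc (K : ℝ)⁻¹ * ‖∑ k ∈ range K, (a (lev w k) - a (lev w' k))‖
      ≤ (K : ℝ)⁻¹ * ∑ k ∈ range K, ‖a (lev w k) - a (lev w' k)‖ := by
        gcongr
        exact norm_sum_le _ _
    _ ≤ (K : ℝ)⁻¹ * ∑ k ∈ range K, L * ∑ i, (if w' i ≤ k ∧ k < w i then (1 : ℝ) else 0) := by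
        gcongr with k hk
        exact h2 k hk
    _ = (K : ℝ)⁻¹ * (L * ∑ i, ∑ k ∈ range K, (if w' i ≤ k ∧ k < w i then (1 : ℝ) else 0)) := by
        rw [← Finset.mul_sum, Finset.sum_comm]
    _ ≤ (K : ℝ)⁻¹ * (L * ∑ i, ((w i : ℝ) - w' i)) := by
        gcongr with i _
        rw [Finset.sum_boole]
        have h5 : (range K).filter (fun k => w' i ≤ k ∧ k < w i) ⊆ Finset.Ico (w' i) (w i) := by
          intro k hk
          simp only [Finset.mem_filter, Finset.mem_range] at hk
          simp [hk.2]
        have h6 := Finset.card_le_card h5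
        rw [Nat.card_Ico] at h6
        have h7 : (((range K).filter (fun k => w' i ≤ k ∧ k < w i)).card : ℝ)
            ≤ ((w i - w' i : ℕ) : ℝ) := by exact_mod_cast h6
        rw [Nat.cast_sub (hw i)] at h7
        exact h7
    _ = L / K * ∑ i, ((w i : ℝ) - w' i) := by ring

lemma avg_const (a : Finset ι → Y) {K : ℕ} (hK : 0 < K) (A : Finset ι) :
    avg K a (fun i => if i ∈ A then K else 0) = a A := by
  unfold avg
  have h1 : ∀ k ∈ range K, a (lev (fun i => if i ∈ A then K else 0) k) = a A := by
    intro k hk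
    congr 1
    ext i
    simp only [lev, Finset.mem_filter, Finset.mem_univ, true_and]
    rw [Finset.mem_range] at hk
    by_cases hi : i ∈ A
    · simp [hi, hk]
    · simp [hi]
  rw [Finset.sum_congr rfl h1]
  simp only [Finset.sum_const, Finset.card_range]
  rw [← Nat.cast_smul_eq_nsmul ℝ, smul_smul, inv_mul_cancel₀ (by positivity), one_smul]

omit [DecidableEq ι] in
lemma modulus_large {ω : ℝ → ℝ} (hω : SteepModulus ω) (b : Y → ι → ℝ) {C : ℝ}
    (hB : ∀ y y', ‖y - y'‖ ≤ 1 → ∑ i, ω |b y i - b y' i| ≤ C) (y y' : Y) :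
    ∑ i, ω |b y i - b y' i| ≤ C * (‖y - y'‖ + 1) := by
  have hC : 0 ≤ C := by
    refine le_trans ?_ (hB y y (by simp))
    exact Finset.sum_nonneg fun i _ => hω.nonneg (abs_nonneg _)
  have key : ∀ M : ℕ, ∀ y y' : Y, ‖y - y'‖ ≤ (M + 1 : ℕ) →
      ∑ i, ω |b y i - b y' i| ≤ C * (M + 1 : ℕ) := by
    intro M
    induction M with
    | zero => intro y y' h; simpa using hB y y' (by simpa using h)
    | succ M ih =>
      intro y y' h
      set z : Y := y' + ((M + 1 : ℝ) / (M + 2)) • (y - y') with hz
      have h1 : ‖y - z‖ ≤ 1 := by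
        have : y - z = (1 / (M + 2 : ℝ)) • (y - y') := by
          have h2 : (1 / (M + 2 : ℝ)) = 1 - (M + 1 : ℝ) / (M + 2) := by
            field_simp; ring
          rw [h2, sub_smul, one_smul, hz]; abel
        rw [this, norm_smul, Real.norm_eq_abs, abs_of_nonneg (by positivity)]
        rw [one_div, inv_mul_le_iff₀ (by positivity)]
        push_cast at h
        linarith
      have h2 : ‖z - y'‖ ≤ (M + 1 : ℕ) := by
        have : z - y' = ((M + 1 : ℝ) / (M + 2)) • (y - y') := by rw [hz]; abel
        rw [this, norm_smul, Real.norm_eq_abs, abs_of_nonneg (by positivity)]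
        push_cast at h ⊢
        calc (M + 1 : ℝ) / (M + 2) * ‖y - y'‖ ≤ (M + 1 : ℝ) / (M + 2) * (M + 1 + 1) := by
              gcongr
          _ = M + 1 := by field_simp; ring
      have h3 := hω.sum_abs_sub_le (b y) (b z) (b y')
      have h4 := hB y z h1
      have h5 := ih z y' h2
      push_cast at h5 ⊢
      linarith
  have h1 := key ⌊‖y - y'‖⌋₊ y y' (by push_cast; exact (Nat.lt_floor_add_one _).le)
  refine h1.trans ?_
  gcongr
  push_cast
  have := Nat.floor_le (norm_nonneg (y - y'))
  linarith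

/-- The word on the product index set carried by one coordinate in each block. -/
def emb {n m : ℕ} (h : Fin n → Fin (m + 1)) (v : Fin n → ℕ) : Fin n × Fin (m + 1) → ℕ :=
  fun i => if i.2 = h i.1 then v i.1 else 0

lemma emb_update {n m : ℕ} (h : Fin n → Fin (m + 1)) (v : Fin n → ℕ) (j : Fin n)
    (x : Fin (m + 1)) (hv : v j = 0) : emb (Function.update h j x) v = emb h v := by
  funext i
  unfold emb
  by_cases hi : i.1 = j
  · rw [hi, hv]; simp
  · rw [Function.update_of_ne hi]

lemma sum_emb_sub {n m : ℕ} (h : Fin n → Fin (m + 1)) (v v' : Fin n → ℕ) :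
    ∑ i, ((emb h v i : ℝ) - emb h v' i) = ∑ j, ((v j : ℝ) - v' j) := by
  rw [Fintype.sum_prod_type]
  refine Finset.sum_congr rfl fun j _ => ?_
  rw [Finset.sum_eq_single (h j)]
  · simp [emb]
  · intro x _ hx
    simp [emb, hx]
  · simp

end Cube

/-- **Core theorem.** The Hamming cubes do not factor, with uniform constants, through normed
spaces into the sequence spaces given by a steep modulus. -/
theorem core {ω : ℝ → ℝ} (hω : SteepModulus ω) {Y : Type*} [NormedAddCommGroup Y]
    [NormedSpace ℝ Y] (L C : ℝ)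
    (hsys : ∀ N : ℕ, ∃ a : Finset (Fin N) → Y, ∃ b : Y → Fin N → ℝ,
      (∀ A i, i ∉ A → ‖a (insert i A) - a A‖ ≤ L) ∧
      (∀ y y', ‖y - y'‖ ≤ 1 → ∑ i, ω |b y i - b y' i| ≤ C) ∧
      (∀ A, ∑ i, ω |b (a A) i - (if i ∈ A then 1 else 0)| ≤ C)) : False := by
  classical
  -- reindex the systems by an arbitrary finite type
  have hsys' : ∀ (ι : Type) [Fintype ι] [DecidableEq ι], ∃ a : Finset ι → Y, ∃ b : Y → ι → ℝ,
      (∀ A i, i ∉ A → ‖a (insert i A) - a A‖ ≤ L) ∧
      (∀ y y', ‖y - y'‖ ≤ 1 → ∑ i, ω |b y i - b y' i| ≤ C) ∧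
      (∀ A, ∑ i, ω |b (a A) i - (if i ∈ A then 1 else 0)| ≤ C) := by
    intro ι _ _
    obtain ⟨a, b, h1, h2, h3⟩ := hsys (Fintype.card ι)
    set e := Fintype.equivFin ι with he
    refine ⟨fun A => a (A.map e.toEmbedding), fun y i => b y (e i), ?_, ?_, ?_⟩
    · intro A i hi
      have h4 : (insert i A).map e.toEmbedding = insert (e i) (A.map e.toEmbedding) :=
        Finset.map_insert _ _ _
      simp only [h4]
      apply h1
      simpa using hi
    · intro y y' hy
      rw [Equiv.sum_comp e (fun i => ω |b y i - b y' i|)]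
      exact h2 y y' hy
    · intro A
      have h4 := h3 (A.map e.toEmbedding)
      rw [← Equiv.sum_comp e] at h4
      refine le_trans (le_of_eq ?_) h4
      refine Finset.sum_congr rfl fun i _ => ?_
      simp
  -- signs of the constants
  have hC : 0 ≤ C := by
    obtain ⟨a, b, _, h2, _⟩ := hsys 0
    simpa using h2 0 0 (by simp)
  have hL : 0 ≤ L := by
    obtain ⟨a, b, h1, _, _⟩ := hsys 1
    exact (norm_nonneg _).trans (h1 ∅ 0 (by simp))
  -- choice of the number of levels
  obtain ⟨K, hK2, hK⟩ := hω.exists_levels (2 * C * L)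
  have hK0 : 0 < K := by omega
  have hKr : (0 : ℝ) < K := by exact_mod_cast hK0
  set τ : ℝ := 1 / (2 * K) with hτ
  have hτ0 : 0 < τ := by positivity
  have hτω : 0 < ω τ := hω.pos hτ0
  set β : ℝ := C / ω τ with hβ
  have hβ0 : 0 ≤ β := by positivity
  have hα : C * (L / K) / ω τ ≤ 1 / 2 := by
    rw [div_le_iff₀ hτω]
    have : C * (L / K) = (C * L) / K := by ring
    rw [this, div_le_iff₀ hKr]
    linarith
  -- choice of the number of blocks
  obtain ⟨n, hn⟩ := exists_nat_gt (2 ^ K * (2 * β))
  -- choice of the size of the blocks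
  have hq : 0 < ω (1 / 4) := hω.pos (by norm_num)
  obtain ⟨B1, hB1⟩ := exists_nat_ge ((C * (L * n + 1) + C) / ω (1 / 4))
  obtain ⟨m, hm⟩ : ∃ m : ℕ, n * ((K + 1) ^ n * B1) < m + 1 :=
    ⟨n * ((K + 1) ^ n * B1), by omega⟩
  obtain ⟨a, b, hA, hB, hAB⟩ := hsys' (Fin n × Fin (m + 1))
  have hBig := modulus_large hω b hB
  -- the value at the empty set
  have hempty : ∑ i, ω |b (a ∅) i - 0| ≤ C := by
    have := hAB ∅
    simpa using this
  set R : (Fin n × Fin (m + 1) → ℕ) → Fin n × Fin (m + 1) → ℝ :=
    fun w => b (avg K a w) with hR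
  -- moving along words
  have hmove : ∀ w w' : Fin n × Fin (m + 1) → ℕ, (∀ i, w' i ≤ w i) →
      ∑ i, ω |R w i - R w' i| ≤ C * (L / K * ∑ i, ((w i : ℝ) - w' i) + 1) := by
    intro w w' hw
    refine (hBig _ _).trans ?_
    gcongr
    exact dist_avg a hL hA K w w' hw
  have hzero : avg K a (fun _ => 0) = a ∅ := by
    have := avg_const a hK0 ∅
    simpa using this
  -- the free set
  obtain ⟨h, hgood⟩ := exists_good (n := n) (m := m)
    (fun j h => ∃ v : Fin n → Fin (K + 1), (v j : ℕ) = 0 ∧
      1 / 4 ≤ |R (emb h (fun i => (v i : ℕ))) (j, h j)|) ((K + 1) ^ n * B1) (by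
      intro j h s hs
      -- cover by the words
      have hcover : s ⊆ (univ : Finset (Fin n → Fin (K + 1))).biUnion (fun v =>
          s.filter (fun x => (v j : ℕ) = 0 ∧
            1 / 4 ≤ |R (emb h (fun i => (v i : ℕ))) (j, x)|)) := by
        intro x hx
        obtain ⟨v, hv0, hv⟩ := hs x hx
        rw [Finset.mem_biUnion]
        refine ⟨v, Finset.mem_univ _, ?_⟩
        rw [Finset.mem_filter]
        refine ⟨hx, hv0, ?_⟩
        rw [emb_update h _ j x hv0] at hv
        simpa using hv
      refine (Finset.card_le_card hcover).trans ?_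
      refine Finset.card_biUnion_le.trans ?_
      have h5 : ∀ v ∈ (univ : Finset (Fin n → Fin (K + 1))),
          (s.filter (fun x => (v j : ℕ) = 0 ∧
            1 / 4 ≤ |R (emb h (fun i => (v i : ℕ))) (j, x)|)).card ≤ B1 := by
        intro v _
        set T := s.filter (fun x => (v j : ℕ) = 0 ∧
            1 / 4 ≤ |R (emb h (fun i => (v i : ℕ))) (j, x)|) with hT
        -- push to the product
        have h6 : ((T.image (fun x => (j, x))).card : ℝ)
            ≤ (C * (L * n + 1) + C) / ω (1 / 4) := by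
          refine hω.card_le (R (emb h (fun i => (v i : ℕ)))) (fun _ => 0) _ (by norm_num) ?_ ?_
          · intro i hi
            rw [Finset.mem_image] at hi
            obtain ⟨x, hx, rfl⟩ := hi
            rw [hT, Finset.mem_filter] at hx
            simpa using hx.2.2
          · refine (hω.sum_abs_sub_le _ (b (a ∅)) _).trans ?_
            refine add_le_add ?_ hempty
            have h7 := hmove (emb h (fun i => (v i : ℕ))) (fun _ => 0) (fun i => Nat.zero_le _)
            simp only [hR] at h7
            rw [hzero] at h7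
            refine h7.trans ?_
            have h8 : ∑ i, ((emb h (fun i => (v i : ℕ)) i : ℝ) - ((0 : ℕ) : ℝ))
                = ∑ j, ((v j : ℕ) : ℝ) := by
              have h9 := sum_emb_sub h (fun i => (v i : ℕ)) (fun _ => 0)
              have h10 : (emb h (fun _ => 0)) = fun _ => 0 := by
                funext i; simp [emb]
              rw [h10] at h9
              simpa using h9
            rw [h8]
            have h11 : ∑ j, ((v j : ℕ) : ℝ) ≤ n * K := by
              calc ∑ j, ((v j : ℕ) : ℝ) ≤ ∑ _j : Fin n, (K : ℝ) := by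
                    refine Finset.sum_le_sum fun j _ => ?_
                    exact_mod_cast Nat.lt_succ_iff.mp (v j).isLt
                _ = n * K := by simp
            have h12 : L / K * ∑ j, ((v j : ℕ) : ℝ) ≤ L * n := by
              calc L / K * ∑ j, ((v j : ℕ) : ℝ) ≤ L / K * (n * K) := by gcongr
                _ = L * n := by field_simp
            gcongr
        rw [Finset.card_image_of_injective _ (fun x y hxy => by simpa using hxy)] at h6
        exact_mod_cast h6.trans hB1
      calc ∑ v : Fin n → Fin (K + 1), (s.filter (fun x => (v j : ℕ) = 0 ∧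
            1 / 4 ≤ |R (emb h (fun i => (v i : ℕ))) (j, x)|)).card
          ≤ ∑ _v : Fin n → Fin (K + 1), B1 := Finset.sum_le_sum h5
        _ = (K + 1) ^ n * B1 := by simp) hm
  push Not at hgood
  -- lowering the levels
  have hlow : ∀ k : ℕ, k ≤ K → ∃ v : Fin n → ℕ, ∃ V : Finset (Fin n),
      (∀ j, v j ≤ K) ∧ (∀ j ∈ V, v j = K - k) ∧
      (∀ j ∈ V, 3 / 4 - k * τ ≤ R (emb h v) (j, h j)) ∧
      (n : ℝ) / 2 ^ k - 2 * β ≤ V.card := by
    intro k
    induction k with
    | zero =>
      intro _
      refine ⟨fun _ => K, univ.filter (fun j => 3 / 4 ≤ R (emb h (fun _ => K)) (j, h j)),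
        fun _ => le_rfl, fun _ _ => rfl, ?_, ?_⟩
      · intro j hj
        rw [Finset.mem_filter] at hj
        simpa using hj.2
      · -- the complement is small
        set A : Finset (Fin n × Fin (m + 1)) := univ.filter (fun i => i.2 = h i.1) with hAdef
        have h1 : R (emb h (fun _ => K)) = b (a A) := by
          simp only [hR]
          have h2 : emb h (fun _ => K) = fun i => if i ∈ A then K else 0 := by
            funext i; simp [emb, hAdef]
          rw [h2, avg_const a hK0 A]
        set T : Finset (Fin n) :=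
          univ.filter (fun j => ¬ 3 / 4 ≤ R (emb h (fun _ => K)) (j, h j)) with hT
        have h3 : ((T.image (fun j => (j, h j))).card : ℝ) ≤ C / ω (1 / 4) := by
          refine hω.card_le (b (a A)) (fun i => if i ∈ A then 1 else 0) _ (by norm_num) ?_ (hAB A)
          intro i hi
          rw [Finset.mem_image] at hi
          obtain ⟨j, hj, rfl⟩ := hi
          rw [hT, Finset.mem_filter, h1] at hj
          have h4 : (j, h j) ∈ A := by simp [hAdef]
          simp only [h4, if_true]
          have h5 := hj.2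
          push Not at h5
          rw [abs_sub_comm]
          refine le_trans ?_ (le_abs_self _)
          linarith
        rw [Finset.card_image_of_injective _ (fun x y hxy => by
          simpa using (Prod.mk.inj hxy).1)] at h3
        have h4 : (univ.filter (fun j => 3 / 4 ≤ R (emb h (fun _ => K)) (j, h j))).card
            + T.card = n := by
          rw [hT, Finset.card_filter_add_card_filter_not]
          simp
        have h5 : ((univ.filter (fun j => 3 / 4 ≤ R (emb h (fun _ => K)) (j, h j))).card : ℝ)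
            + T.card = n := by exact_mod_cast h4
        have h6 : C / ω (1 / 4) ≤ β := by
          rw [hβ]
          have : ω τ ≤ ω (1 / 4) := by
            apply hω.mono _ _ hτ0.le
            rw [hτ, div_le_div_iff₀ (by positivity) (by norm_num)]
            have : (2 : ℝ) ≤ K := by exact_mod_cast hK2
            linarith
          gcongr
        simp only [pow_zero, div_one]
        linarith
    | succ k ih =>
      intro hk
      obtain ⟨v, V, hv1, hv2, hv3, hv4⟩ := ih (by omega)
      set v' : Fin n → ℕ := fun j => if j ∈ V then v j - 1 else v j with hv'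
      have hv'v : ∀ j, v' j ≤ v j := by
        intro j; simp only [hv']; split_ifs <;> omega
      have hsum : ∑ j, ((v j : ℝ) - v' j) = V.card := by
        have h1 : ∀ j, ((v j : ℝ) - v' j) = if j ∈ V then 1 else 0 := by
          intro j
          simp only [hv']
          by_cases hj : j ∈ V
          · have h2 := hv2 j hj
            have h3 : 1 ≤ v j := by omega
            simp only [hj, if_true]
            push_cast [Nat.cast_sub h3]
            ring
          · simp [hj]
        simp_rw [h1]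
        simp
      have hmv := hmove (emb h v) (emb h v') (fun i => by
        unfold emb; split_ifs
        · exact hv'v _
        · exact le_rfl)
      rw [sum_emb_sub, hsum] at hmv
      set V' := V.filter (fun j => 3 / 4 - ((k + 1 : ℕ) : ℝ) * τ ≤ R (emb h v') (j, h j))
        with hV'
      refine ⟨v', V', fun j => (hv'v j).trans (hv1 j), ?_, ?_, ?_⟩
      · intro j hj
        rw [hV', Finset.mem_filter] at hj
        simp only [hv', hj.1, if_true]
        rw [hv2 j hj.1]
        omega
      · intro j hj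
        rw [hV', Finset.mem_filter] at hj
        exact hj.2
      · set T := V.filter (fun j => ¬ 3 / 4 - ((k + 1 : ℕ) : ℝ) * τ ≤ R (emb h v') (j, h j))
          with hT
        have h3 : ((T.image (fun j => (j, h j))).card : ℝ)
            ≤ (C * (L / K * V.card + 1)) / ω τ := by
          refine hω.card_le (R (emb h v)) (R (emb h v')) _ hτ0 ?_ hmv
          intro i hi
          rw [Finset.mem_image] at hi
          obtain ⟨j, hj, rfl⟩ := hi
          rw [hT, Finset.mem_filter] at hj
          have h4 := hv3 j hj.1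
          have h5 := hj.2
          push Not at h5
          refine le_trans ?_ (le_abs_self _)
          push_cast at h5
          linarith
        rw [Finset.card_image_of_injective _ (fun x y hxy => by
          simpa using (Prod.mk.inj hxy).1)] at h3
        have h4 : V'.card + T.card = V.card := by
          rw [hT, hV', Finset.card_filter_add_card_filter_not]
        have h5 : (V'.card : ℝ) + T.card = V.card := by exact_mod_cast h4
        have h6 : (C * (L / K * V.card + 1)) / ω τ
            = (C * (L / K) / ω τ) * V.card + β := by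
          rw [hβ]; ring
        rw [h6] at h3
        have h7 : (C * (L / K) / ω τ) * V.card ≤ 1 / 2 * V.card := by gcongr
        have h8 : (n : ℝ) / 2 ^ (k + 1) = (n / 2 ^ k) / 2 := by
          rw [pow_succ]; field_simp
        rw [h8]
        linarith
  obtain ⟨v, V, hv1, hv2, hv3, hv4⟩ := hlow K le_rfl
  have hVpos : (0 : ℝ) < V.card := by
    refine lt_of_lt_of_le ?_ hv4
    rw [sub_pos, lt_div_iff₀ (by positivity)]
    linarith
  have hVne : V.Nonempty := by
    rw [← Finset.card_pos]
    exact_mod_cast hVpos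
  obtain ⟨j, hj⟩ := hVne
  have h1 := hgood j (fun i => ⟨v i, Nat.lt_succ_of_le (hv1 i)⟩) (by
    simp [hv2 j hj])
  have h2 := hv3 j hj
  simp only at h1
  have h3 : (K : ℝ) * τ = 1 / 2 := by rw [hτ]; field_simp
  rw [h3] at h2
  have h4 := lt_of_abs_lt h1
  linarith

end Pool.Agent.W68deb0
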