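import Mathlib

/-!
# Definitions: coarse retractions, cubes, systems of F-seminorms, the spaces `ℓ_p`, `0 < p < 1`
-/

namespace Pool.Agent.W68deb0

open Finset Topology

/-- A modulus: nondecreasing and subadditive on `[0, ∞)`, with `ω t / t` unbounded on `(0, 1]`. -/
structure SteepModulus (ω : ℝ → ℝ) : Prop where
  mono : ∀ s t : ℝ, 0 ≤ s → s ≤ t → ω s ≤ ω t
  subadd : ∀ s t : ℝ, 0 ≤ s → 0 ≤ t → ω (s + t) ≤ ω s + ω t
  steep : ∀ R : ℝ, ∃ t : ℝ, 0 < t ∧ t ≤ 1 ∧ R * t ≤ ω t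

/-- `f : E → F` and `g : F → E` exhibit the real topological vector space `E` as a coarse retract
of the normed space `F`: `f` maps pairs whose difference lies in a fixed bounded set to pairs at
bounded distance, `g` maps pairs at bounded distance to pairs whose difference lies in a fixed
bounded set, and `g ∘ f` is at bounded distance from the identity. -/
structure IsCoarseRetraction {E F : Type*} [AddCommGroup E] [Module ℝ E] [TopologicalSpace E]
    [NormedAddCommGroup F] (f : E → F) (g : F → E) : Prop where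
  fwd : ∀ B : Set E, Bornology.IsVonNBounded ℝ B →
    ∃ L : ℝ, ∀ x x', x - x' ∈ B → ‖f x - f x'‖ ≤ L
  bwd : ∀ r : ℝ, Bornology.IsVonNBounded ℝ {z : E | ∃ y y' : F, ‖y - y'‖ ≤ r ∧ z = g y - g y'}
  close : Bornology.IsVonNBounded ℝ {z : E | ∃ x : E, z = g (f x) - x}

/-- `E` is neither a uniform nor a coarse retract of any real normed space. -/
def NoNormedRetraction (E : Type) [AddCommGroup E] [Module ℝ E] [UniformSpace E] : Prop :=
  ∀ (F : Type) [NormedAddCommGroup F] [NormedSpace ℝ F] (f : E → F) (g : F → E),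
    ¬ (UniformContinuous f ∧ UniformContinuous g ∧ ∀ x, g (f x) = x) ∧
    ¬ IsCoarseRetraction f g

/-- `E` contains nonlinear copies of all Hamming cubes `{0,1}^N` whose edges are differences in a
fixed bounded set, and which are separated by real functions `r₁, …, r_N` on `E` that form a map
into the sequence space of the modulus `ω` with uniform control on a neighbourhood of zero. -/
def HasCubes (ω : ℝ → ℝ) (E : Type*) [AddCommGroup E] [Module ℝ E] [TopologicalSpace E] : Prop :=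
  ∃ B : Set E, Bornology.IsVonNBounded ℝ B ∧ ∃ W ∈ 𝓝 (0 : E), ∀ N : ℕ,
    ∃ x : Finset (Fin N) → E, ∃ r : E → Fin N → ℝ,
      (∀ A i, i ∉ A → x (insert i A) - x A ∈ B) ∧
      (∀ A i, r (x A) i = if i ∈ A then 1 else 0) ∧
      (∀ u v, u - v ∈ W → ∑ i, ω |r u i - r v i| ≤ 1)

/-- For every `N` there are vectors `e₁, …, e_N` in a fixed bounded set and F-seminorms
`ρ₁, …, ρ_N` (subadditive, symmetric, zero at zero) with `ρ_i (e_i) ≥ 1`, `ρ_i (e_j) = 0` for
`i ≠ j` and `∑ ω (ρ_i w) ≤ 1` on a fixed neighbourhood of zero. -/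
def HasSystems (ω : ℝ → ℝ) (E : Type*) [AddCommGroup E] [Module ℝ E] [TopologicalSpace E] :
    Prop :=
  ∃ B : Set E, Bornology.IsVonNBounded ℝ B ∧ ∃ W ∈ 𝓝 (0 : E), ∀ N : ℕ,
    ∃ e : Fin N → E, ∃ ρ : Fin N → E → ℝ,
      (∀ i, e i ∈ B) ∧ (∀ i, ρ i 0 = 0) ∧ (∀ i u v, ρ i (u + v) ≤ ρ i u + ρ i v) ∧
      (∀ i u, ρ i (-u) = ρ i u) ∧ (∀ i, 1 ≤ ρ i (e i)) ∧ (∀ i j, i ≠ j → ρ i (e j) = 0) ∧
      (∀ w ∈ W, ∑ i, ω (ρ i w) ≤ 1)

/-- `E` contains uniformly complemented copies of the spaces `ℓ_p^N`: there are vectors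
`e₁, …, e_N` in a fixed bounded set and linear maps `T` from `E` to `ℝ^N` with `T e_i` the `i`-th
unit vector and `∑ |(T w)_i| ^ p ≤ 1` on a fixed neighbourhood of zero. -/
def HasComplementedEllp (p : ℝ) (E : Type*) [AddCommGroup E] [Module ℝ E]
    [TopologicalSpace E] : Prop :=
  ∃ B : Set E, Bornology.IsVonNBounded ℝ B ∧ ∃ W ∈ 𝓝 (0 : E), ∀ N : ℕ,
    ∃ e : Fin N → E, ∃ T : E →ₗ[ℝ] (Fin N → ℝ),
      (∀ i, e i ∈ B) ∧ (∀ i, T (e i) = Pi.single i 1) ∧
      (∀ w ∈ W, ∑ i, |T w i| ^ p ≤ 1)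

end Pool.Agent.W68deb0
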