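import Pool.Agent.W_MP_68deb0_an.Core

/-!
# From topological vector spaces to the combinatorial core
-/

namespace Pool.Agent.W68deb0

open Finset Topology Filter

section Chain

variable {E : Type*} [AddCommGroup E] [Module ℝ E]

/-- A bounded set is absorbed: a fixed fraction of its elements lies in a given neighbourhood. -/
lemma exists_frac [TopologicalSpace E] {B W : Set E} (hB : Bornology.IsVonNBounded ℝ B)
    (hW : W ∈ 𝓝 (0 : E)) :
    ∃ m : ℕ, ∀ z ∈ B, (1 / ((m : ℝ) + 1)) • z ∈ W := by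
  have h1 := hB hW
  rw [absorbs_iff_norm] at h1
  obtain ⟨r, hr⟩ := h1
  obtain ⟨m, hm⟩ := exists_nat_ge r
  refine ⟨m, fun z hz => ?_⟩
  have h2 : r ≤ ‖((m : ℝ) + 1)‖ := by
    rw [Real.norm_eq_abs, abs_of_nonneg (by positivity)]
    linarith
  have h3 := hr _ h2 hz
  obtain ⟨w, hw, rfl⟩ := h3
  have h4 : (1 / ((m : ℝ) + 1)) • (((m : ℝ) + 1) • w) = w := by
    rw [smul_smul, one_div, inv_mul_cancel₀ (by positivity), one_smul]
  have h5 : (1 / ((m : ℝ) + 1)) • (fun x => ((m : ℝ) + 1) • x) w ∈ W := by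
    simp only []
    rw [h4]; exact hw
  exact h5

/-- Chaining along the segment from `v` to `v + z`. -/
lemma chain {ι : Type*} [Fintype ι] {ω : ℝ → ℝ} (hω : SteepModulus ω) (r : E → ι → ℝ) {W : Set E}
    {c : ℝ} (hr : ∀ u v, u - v ∈ W → ∑ i, ω |r u i - r v i| ≤ c) (k : ℕ) (v z : E) (hz : z ∈ W) :
    ∑ i, ω |r (v + ((k : ℝ) + 1) • z) i - r v i| ≤ ((k : ℝ) + 1) * c := by
  induction k with
  | zero =>
    simp only [Nat.cast_zero, zero_add, one_smul, one_mul]
    exact hr _ _ (by simpa using hz)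
  | succ k ih =>
    refine (hω.sum_abs_sub_le _ (r (v + ((k : ℝ) + 1) • z)) _).trans ?_
    have h1 : ∑ i, ω |r (v + (((k + 1 : ℕ) : ℝ) + 1) • z) i - r (v + ((k : ℝ) + 1) • z) i|
        ≤ c := by
      apply hr
      have : v + (((k + 1 : ℕ) : ℝ) + 1) • z - (v + ((k : ℝ) + 1) • z) = z := by
        push_cast
        rw [add_smul ((k : ℝ) + 1) 1 z, one_smul]
        abel
      rw [this]; exact hz
    push_cast at h1 ⊢
    linarith

lemma bounded_control [TopologicalSpace E] {ι : Type*} [Fintype ι] {ω : ℝ → ℝ}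
    (hω : SteepModulus ω) {B W : Set E} {m : ℕ}
    (hm : ∀ z ∈ B, (1 / ((m : ℝ) + 1)) • z ∈ W) (r : E → ι → ℝ)
    (hr : ∀ u v, u - v ∈ W → ∑ i, ω |r u i - r v i| ≤ 1) (u v : E) (huv : u - v ∈ B) :
    ∑ i, ω |r u i - r v i| ≤ (m : ℝ) + 1 := by
  have h1 := chain hω r hr m v _ (hm _ huv)
  have h2 : v + ((m : ℝ) + 1) • (1 / ((m : ℝ) + 1)) • (u - v) = u := by
    rw [smul_smul, mul_one_div_cancel (by positivity), one_smul]; abel
  rw [h2, mul_one] at h1
  exact h1

end Chain

/-- Spaces with cubes for a steep modulus are not coarse retracts of normed spaces. -/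
theorem no_coarse {ω : ℝ → ℝ} (hω : SteepModulus ω) {E F : Type*} [AddCommGroup E] [Module ℝ E]
    [TopologicalSpace E] [NormedAddCommGroup F] [NormedSpace ℝ F] (hE : HasCubes ω E)
    (f : E → F) (g : F → E) : ¬ IsCoarseRetraction f g := by
  rintro ⟨h1, h2, h3⟩
  obtain ⟨B, hB, W, hW, hN⟩ := hE
  obtain ⟨L, hL⟩ := h1 B hB
  obtain ⟨m, hm⟩ := exists_frac (h2 1) hW
  obtain ⟨m', hm'⟩ := exists_frac h3 hW
  refine core hω (Y := F) L ((m : ℝ) + 1 + ((m' : ℝ) + 1)) ?_
  intro N
  obtain ⟨x, r, hx, hrx, hr⟩ := hN N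
  refine ⟨fun A => f (x A), fun y => r (g y), ?_, ?_, ?_⟩
  · intro A i hi
    exact hL _ _ (hx A i hi)
  · intro y y' hy
    refine (bounded_control hω hm r hr (g y) (g y') ⟨y, y', hy, rfl⟩).trans ?_
    have : (0 : ℝ) ≤ m' := Nat.cast_nonneg _
    linarith
  · intro A
    have h4 := bounded_control hω hm' r hr (g (f (x A))) (x A) ⟨x A, rfl⟩
    have h5 : (0 : ℝ) ≤ m := Nat.cast_nonneg _
    have h6 : ∀ i, ω |r (g (f (x A))) i - (if i ∈ A then 1 else 0)|
        = ω |r (g (f (x A))) i - r (x A) i| := by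
      intro i; rw [hrx]
    simp only [h6]
    linarith

/-- Spaces with cubes for a steep modulus are not uniform retracts of normed spaces. -/
theorem no_uniform {ω : ℝ → ℝ} (hω : SteepModulus ω) {E F : Type*} [AddCommGroup E] [Module ℝ E]
    [UniformSpace E] [IsUniformAddGroup E] [NormedAddCommGroup F] [NormedSpace ℝ F]
    (hE : HasCubes ω E) (f : E → F) (g : F → E) (hf : UniformContinuous f)
    (hg : UniformContinuous g) (hgf : ∀ x, g (f x) = x) : False := by
  obtain ⟨B, hB, W, hW, hN⟩ := hE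
  -- `f` is bounded on differences in a neighbourhood of zero
  have hf1 : {p : E × E | dist (f p.1) (f p.2) < 1} ∈ uniformity E := by
    have := hf (Metric.dist_mem_uniformity (zero_lt_one))
    exact this
  rw [uniformity_eq_comap_nhds_zero, mem_comap] at hf1
  obtain ⟨V, hV, hVf⟩ := hf1
  have hV' : ∀ x x', x - x' ∈ V → ‖f x' - f x‖ ≤ 1 := by
    intro x x' hx
    have : (x', x) ∈ {p : E × E | dist (f p.1) (f p.2) < 1} := hVf (by simpa using hx)
    rw [← dist_eq_norm]
    exact this.le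
  obtain ⟨m, hm⟩ := exists_frac hB hV
  -- chaining for `f`
  have hchain : ∀ (k : ℕ) (v z : E), z ∈ V → ‖f (v + (k : ℝ) • z) - f v‖ ≤ k := by
    intro k
    induction k with
    | zero => intro v z _; simp
    | succ k ih =>
      intro v z hz
      have h1 := ih v z hz
      have h2 : ‖f (v + ((k + 1 : ℕ) : ℝ) • z) - f (v + (k : ℝ) • z)‖ ≤ 1 := by
        rw [norm_sub_rev]
        apply hV'
        have : v + ((k + 1 : ℕ) : ℝ) • z - (v + (k : ℝ) • z) = z := by
          push_cast
          rw [add_smul (k : ℝ) 1 z, one_smul]; abel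
        rw [this]; exact hz
      calc ‖f (v + ((k + 1 : ℕ) : ℝ) • z) - f v‖
          = ‖(f (v + ((k + 1 : ℕ) : ℝ) • z) - f (v + (k : ℝ) • z))
              + (f (v + (k : ℝ) • z) - f v)‖ := by congr 1; abel
        _ ≤ 1 + k := (norm_add_le _ _).trans (add_le_add h2 h1)
        _ = ((k + 1 : ℕ) : ℝ) := by push_cast; ring
  have hL : ∀ x x', x - x' ∈ B → ‖f x - f x'‖ ≤ (m : ℝ) + 1 := by
    intro x x' hx
    have h1 := hchain (m + 1) x' _ (hm _ hx)
    have h2 : x' + ((m + 1 : ℕ) : ℝ) • (1 / ((m : ℝ) + 1)) • (x - x') = x := by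
      push_cast
      rw [smul_smul, mul_one_div_cancel (by positivity), one_smul]; abel
    rw [h2] at h1
    push_cast at h1
    exact h1
  -- `g` is controlled
  have hg1 : {p : F × F | g p.2 - g p.1 ∈ W} ∈ uniformity F := by
    have h1 : {p : E × E | p.2 - p.1 ∈ W} ∈ uniformity E := by
      rw [uniformity_eq_comap_nhds_zero, mem_comap]
      exact ⟨W, hW, fun p hp => hp⟩
    exact hg h1
  rw [Metric.mem_uniformity_dist] at hg1
  obtain ⟨η, hη, hgη⟩ := hg1
  obtain ⟨M, hM⟩ := exists_nat_gt (1 / η)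
  have hMη : 1 / ((M : ℝ) + 1) < η := by
    rw [div_lt_iff₀ (by positivity)]
    rw [div_lt_iff₀ hη] at hM
    nlinarith
  refine core hω (Y := F) ((m : ℝ) + 1) ((M : ℝ) + 1) ?_
  intro N
  obtain ⟨x, r, hx, hrx, hr⟩ := hN N
  have hω0 : ∀ u : E, 0 ≤ ∑ i, ω |r u i - r u i| :=
    fun u => Finset.sum_nonneg fun i _ => hω.nonneg (abs_nonneg _)
  refine ⟨fun A => f (x A), fun y => r (g y), ?_, ?_, ?_⟩
  · intro A i hi
    exact hL _ _ (hx A i hi)
  · intro y y' hy
    -- small steps in `F`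
    have hstep : ∀ z z' : F, z - z' ∈ {w : F | ‖w‖ ≤ 1 / ((M : ℝ) + 1)} →
        ∑ i, ω |r (g z) i - r (g z') i| ≤ 1 := by
      intro z z' hz
      apply hr
      have : dist z' z < η := by
        rw [dist_comm, dist_eq_norm]
        exact lt_of_le_of_lt hz hMη
      exact hgη this
    have h1 := chain hω (fun y => r (g y)) hstep M y' ((1 / ((M : ℝ) + 1)) • (y - y')) (by
      show ‖(1 / ((M : ℝ) + 1)) • (y - y')‖ ≤ 1 / ((M : ℝ) + 1)
      rw [norm_smul, Real.norm_eq_abs, abs_of_nonneg (by positivity)]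
      exact mul_le_of_le_one_right (by positivity) hy)
    have h2 : y' + ((M : ℝ) + 1) • (1 / ((M : ℝ) + 1)) • (y - y') = y := by
      rw [smul_smul, mul_one_div_cancel (by positivity), one_smul]; abel
    simp only [h2, mul_one] at h1
    exact h1
  · intro A
    simp only [hgf, hrx, sub_self, abs_zero]
    -- `∑ ω 0 ≤ 1`
    have h1 := hr (x ∅) (x ∅) (by simpa using mem_of_mem_nhds hW)
    simp only [sub_self, abs_zero] at h1
    have h2 : (0 : ℝ) ≤ M := Nat.cast_nonneg _
    linarith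

/-- Systems of F-seminorms give cubes. -/
theorem HasSystems.hasCubes {ω : ℝ → ℝ} (hω : SteepModulus ω) {E : Type*} [AddCommGroup E]
    [Module ℝ E] [TopologicalSpace E] (hE : HasSystems ω E) : HasCubes ω E := by
  obtain ⟨B, hB, W, hW, hN⟩ := hE
  refine ⟨B, hB, W, hW, fun N => ?_⟩
  obtain ⟨e, ρ, heB, hρ0, hadd, hneg, h1, hij, hρW⟩ := hN N
  have hnn : ∀ i u, 0 ≤ ρ i u := by
    intro i u
    have h2 := hadd i u (-u)
    rw [add_neg_cancel, hρ0, hneg] at h2
    linarith
  have hsub : ∀ i u v, ρ i u - ρ i v ≤ ρ i (u - v) := by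
    intro i u v
    have h2 := hadd i (u - v) v
    rw [sub_add_cancel] at h2
    linarith
  have hsum0 : ∀ i (A : Finset (Fin N)), i ∉ A → ρ i (∑ j ∈ A, e j) = 0 := by
    intro i A
    induction A using Finset.induction_on with
    | empty => intro _; simpa using hρ0 i
    | insert j A hj ih =>
      intro hi
      rw [Finset.mem_insert, not_or] at hi
      rw [Finset.sum_insert hj]
      have h2 := hadd i (e j) (∑ j ∈ A, e j)
      rw [ih hi.2, hij i j hi.1] at h2
      exact le_antisymm (by linarith) (hnn _ _)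
  have hsum1 : ∀ i (A : Finset (Fin N)), i ∈ A → 1 ≤ ρ i (∑ j ∈ A, e j) := by
    intro i A hi
    have h2 : ∑ j ∈ A, e j - ∑ j ∈ A.erase i, e j = e i := by
      rw [← Finset.add_sum_erase A e hi]; abel
    have h3 := hadd i (∑ j ∈ A, e j) (-(∑ j ∈ A.erase i, e j))
    rw [← sub_eq_add_neg, h2, hneg, hsum0 i (A.erase i) (by simp)] at h3
    linarith [h1 i]
  refine ⟨fun A => ∑ j ∈ A, e j, fun u i => min 1 (ρ i u), ?_, ?_, ?_⟩
  · intro A i hi
    beta_reduce
    rw [Finset.sum_insert hi]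
    simpa using heB i
  · intro A i
    by_cases hi : i ∈ A
    · simp [hi, hsum1 i A hi]
    · simp [hi, hsum0 i A hi]
  · intro u v huv
    refine le_trans (Finset.sum_le_sum fun i _ => ?_) (hρW _ huv)
    apply hω.mono _ _ (abs_nonneg _)
    have h2 := hsub i u v
    have h3 := hsub i v u
    have h4 : ρ i (v - u) = ρ i (u - v) := by rw [← hneg, neg_sub]
    rw [h4] at h3
    rw [abs_le]
    have h5 := hnn i (u - v)
    constructor
    · rcases le_total 1 (ρ i u) with h6 | h6 <;> rcases le_total 1 (ρ i v) with h7 | h7 <;>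
        simp only [min_eq_left, min_eq_right, h6, h7] <;> linarith
    · rcases le_total 1 (ρ i u) with h6 | h6 <;> rcases le_total 1 (ρ i v) with h7 | h7 <;>
        simp only [min_eq_left, min_eq_right, h6, h7] <;> linarith

/-- The modulus `t ↦ t ^ p` is steep for `0 < p < 1`. -/
theorem steep_rpow {p : ℝ} (hp0 : 0 < p) (hp1 : p < 1) : SteepModulus (fun t => t ^ p) := by
  refine ⟨?_, ?_, ?_⟩
  · intro s t hs hst
    exact Real.rpow_le_rpow hs hst hp0.le
  · intro s t hs ht
    exact Real.rpow_add_le_add_rpow hs ht hp0.le hp1.le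
  · intro R
    set S : ℝ := max R 1 with hS
    have hS1 : 1 ≤ S := le_max_right _ _
    have hS0 : 0 < S := by linarith
    have hq : 0 < 1 - p := by linarith
    refine ⟨S ^ (-(1 / (1 - p))), by positivity, ?_, ?_⟩
    · apply Real.rpow_le_one_of_one_le_of_nonpos hS1
      have : 0 < 1 / (1 - p) := by positivity
      linarith
    · set t : ℝ := S ^ (-(1 / (1 - p))) with ht
      have ht0 : 0 < t := by positivity
      have h1 : t ^ p = S * t := by
        have h2 : t ^ (p - 1) = S := by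
          rw [ht, ← Real.rpow_mul hS0.le]
          have : -(1 / (1 - p)) * (p - 1) = 1 := by field_simp; ring
          rw [this, Real.rpow_one]
        have h3 : t ^ p = t ^ (p - 1) * t := by
          rw [← Real.rpow_add_one ht0.ne']
          congr 1; ring
        rw [h3, h2]
      rw [h1]
      gcongr
      exact le_max_left _ _

/-- Uniformly complemented copies of `ℓ_p^N` give systems. -/
theorem HasComplementedEllp.hasSystems {p : ℝ} {E : Type*} [AddCommGroup E]
    [Module ℝ E] [TopologicalSpace E] (hE : HasComplementedEllp p E) :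
    HasSystems (fun t => t ^ p) E := by
  obtain ⟨B, hB, W, hW, hN⟩ := hE
  refine ⟨B, hB, W, hW, fun N => ?_⟩
  obtain ⟨e, T, heB, hT, hTW⟩ := hN N
  refine ⟨e, fun i u => |T u i|, heB, ?_, ?_, ?_, ?_, ?_, hTW⟩
  · intro i; simp
  · intro i u v
    simp only [map_add, Pi.add_apply]
    exact abs_add_le _ _
  · intro i u; simp
  · intro i; beta_reduce; rw [hT]; simp
  · intro i j hij
    beta_reduce; rw [hT]; simp [hij]

end Pool.Agent.W68deb0
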